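import Pool.Agent.Lib.P28b.Defs

/-! Ordered semiring structure of the models, substitution, open sets and open induction. -/

set_option autoImplicit false

namespace Pool.Agent.Lib.P28b

/-! ### the ordered semiring -/

section raw

variable {M : Type} [Zero M] [One M] [Add M] [Mul M] [LT M]

/-- The commutative semiring on a model. -/
@[reducible] def Basic.csr (h : Basic M) : CommSemiring M where
  add := (· + ·)
  add_assoc := h.add_assoc
  zero := 0
  zero_add x := by
    change (0 : M) + x = x
    rw [h.add_comm, h.add_zero]
  add_zero := h.add_zero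
  nsmul := nsmulRec
  add_comm := h.add_comm
  mul := (· * ·)
  mul_assoc := h.mul_assoc
  one := 1
  one_mul x := by
    change (1 : M) * x = x
    rw [h.mul_comm, h.mul_one]
  mul_one := h.mul_one
  npow := npowRec
  mul_comm := h.mul_comm
  left_distrib := h.mul_add
  right_distrib x y z := by
    change (x + y) * z = x * z + y * z
    rw [h.mul_comm, h.mul_add, h.mul_comm z x, h.mul_comm z y]
  zero_mul x := by
    change (0 : M) * x = 0
    rw [h.mul_comm, h.mul_zero]
  mul_zero := h.mul_zero

open Classical in
/-- The linear order on a model. -/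
@[reducible] noncomputable def Basic.lo (h : Basic M) : LinearOrder M where
  le x y := x < y ∨ x = y
  lt x y := x < y
  le_refl x := Or.inr rfl
  le_trans x y z h₁ h₂ := by
    rcases h₁ with h₁ | h₁
    · rcases h₂ with h₂ | h₂
      · exact Or.inl (h.lt_trans x y z h₁ h₂)
      · subst h₂; exact Or.inl h₁
    · subst h₁; exact h₂
  lt_iff_le_not_ge x y := by
    constructor
    · intro hxy
      refine ⟨Or.inl hxy, ?_⟩
      rintro (h₁ | h₁)
      · exact h.lt_irrefl x (h.lt_trans x y x hxy h₁)
      · subst h₁; exact h.lt_irrefl _ hxy
    · rintro ⟨h₁ | h₁, h₂⟩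
      · exact h₁
      · exact (h₂ (Or.inr h₁.symm)).elim
  le_antisymm x y h₁ h₂ := by
    rcases h₁ with h₁ | h₁
    · rcases h₂ with h₂ | h₂
      · exact (h.lt_irrefl x (h.lt_trans x y x h₁ h₂)).elim
      · exact h₂.symm
    · exact h₁
  le_total x y := by
    rcases h.lt_total x y with h₁ | h₁ | h₁
    · exact Or.inl (Or.inl h₁)
    · exact Or.inl (Or.inr h₁)
    · exact Or.inr (Or.inl h₁)
  toDecidableLE := Classical.decRel _
  toDecidableEq := Classical.decEq _
  toDecidableLT := Classical.decRel _

theorem Basic.sor (h : Basic M) :
    @IsStrictOrderedRing M (@CommSemiring.toSemiring M h.csr) (@LinearOrder.toPartialOrder M h.lo) := by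
  let := h.csr
  let := h.lo
  have hadd : ∀ a b : M, a ≤ b → ∀ c : M, c + a ≤ c + b := by
    intro a b hab c
    rcases hab with h₁ | h₁
    · refine Or.inl ?_
      have := h.add_lt_add a b c h₁
      rw [h.add_comm a c, h.add_comm b c] at this
      exact this
    · subst h₁; exact le_refl _
  have hcancel : ∀ a b c : M, a + b ≤ a + c → b ≤ c := by
    intro a b c hbc
    rcases h.lt_total b c with h₁ | h₁ | h₁
    · exact Or.inl h₁
    · exact Or.inr h₁
    · exfalso
      have := h.add_lt_add c b a h₁
      rw [h.add_comm c a, h.add_comm b a] at this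
      rcases hbc with h₂ | h₂
      · exact h.lt_irrefl _ (h.lt_trans _ _ _ this h₂)
      · rw [h₂] at this
        exact h.lt_irrefl _ this
  exact
    { add_le_add_left := fun a b hab c => by
        have := hadd a b hab c
        first
          | exact this
          | (change a + c ≤ b + c
             rw [h.add_comm a c, h.add_comm b c]; exact this)
      le_of_add_le_add_left := hcancel
      zero_le_one := Or.inl h.zero_lt_one
      exists_pair_ne := ⟨0, 1, fun h0 => by
        have := h.zero_lt_one
        rw [h0] at this
        exact h.lt_irrefl _ this⟩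
      mul_lt_mul_of_pos_left := fun a ha b c hbc => by
        have := h.mul_lt_mul b c a ha hbc
        change a * b < a * c
        rw [h.mul_comm a b, h.mul_comm a c]
        exact this
      mul_lt_mul_of_pos_right := fun a ha b c hbc => h.mul_lt_mul b c a ha hbc }

end raw

end Pool.Agent.Lib.P28b
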