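import Mathlib

/-!
Syntax and semantics of first-order arithmetic in the language 0, 1, +, ·, <,
the basic axioms (nonnegative parts of discretely ordered rings), the induction schemes for
quantifier-free and for bounded formulas.
-/

set_option autoImplicit false

namespace Pool.Agent.Lib.P28b

/-- Terms of the language 0, 1, +, · with variables in `α`; they are the polynomials with
coefficients in the natural numbers. -/
inductive Tm (α : Type) : Type
  | var (a : α) : Tm α
  | zero : Tm α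
  | one : Tm α
  | add (s t : Tm α) : Tm α
  | mul (s t : Tm α) : Tm α

/-- The value of a term. -/
def Tm.eval {α M : Type} [Zero M] [One M] [Add M] [Mul M] (v : α → M) : Tm α → M
  | .var a => v a
  | .zero => 0
  | .one => 1
  | .add s t => s.eval v + t.eval v
  | .mul s t => s.eval v * t.eval v

/-- Formulas with free variables in `Fin n`; a quantifier binds variable `0` of the formula
behind it and the other variables are moved up by one. The term bounding a quantifier does not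
contain the bound variable. -/
inductive Fm : ℕ → Type
  | lt {n : ℕ} (s t : Tm (Fin n)) : Fm n
  | eq {n : ℕ} (s t : Tm (Fin n)) : Fm n
  | not {n : ℕ} (φ : Fm n) : Fm n
  | and {n : ℕ} (φ ψ : Fm n) : Fm n
  | or {n : ℕ} (φ ψ : Fm n) : Fm n
  | ex {n : ℕ} (φ : Fm (n + 1)) : Fm n
  | all {n : ℕ} (φ : Fm (n + 1)) : Fm n
  | exB {n : ℕ} (t : Tm (Fin n)) (φ : Fm (n + 1)) : Fm n
  | allB {n : ℕ} (t : Tm (Fin n)) (φ : Fm (n + 1)) : Fm n

/-- Truth of a formula in a structure under an assignment: `exB t φ` is `∃ x < t, φ` and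
`allB t φ` is `∀ x < t, φ`. -/
def Fm.sat {M : Type} [Zero M] [One M] [Add M] [Mul M] [LT M] :
    {n : ℕ} → Fm n → (Fin n → M) → Prop
  | _, .lt s t, v => s.eval v < t.eval v
  | _, .eq s t, v => s.eval v = t.eval v
  | _, .not φ, v => ¬ φ.sat v
  | _, .and φ ψ, v => φ.sat v ∧ ψ.sat v
  | _, .or φ ψ, v => φ.sat v ∨ ψ.sat v
  | _, .ex φ, v => ∃ x : M, φ.sat (Fin.cons x v : Fin (_ + 1) → M)
  | _, .all φ, v => ∀ x : M, φ.sat (Fin.cons x v : Fin (_ + 1) → M)
  | _, .exB t φ, v => ∃ x : M, x < t.eval v ∧ φ.sat (Fin.cons x v : Fin (_ + 1) → M)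
  | _, .allB t φ, v => ∀ x : M, x < t.eval v → φ.sat (Fin.cons x v : Fin (_ + 1) → M)

/-- No quantifiers at all. -/
def Fm.QFree : {n : ℕ} → Fm n → Prop
  | _, .lt _ _ => True
  | _, .eq _ _ => True
  | _, .not φ => φ.QFree
  | _, .and φ ψ => φ.QFree ∧ ψ.QFree
  | _, .or φ ψ => φ.QFree ∧ ψ.QFree
  | _, .ex _ => False
  | _, .all _ => False
  | _, .exB _ _ => False
  | _, .allB _ _ => False

/-- Bounded formulas: every quantifier is bounded. -/
def Fm.Bounded : {n : ℕ} → Fm n → Prop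
  | _, .lt _ _ => True
  | _, .eq _ _ => True
  | _, .not φ => φ.Bounded
  | _, .and φ ψ => φ.Bounded ∧ ψ.Bounded
  | _, .or φ ψ => φ.Bounded ∧ ψ.Bounded
  | _, .ex _ => False
  | _, .all _ => False
  | _, .exB _ φ => φ.Bounded
  | _, .allB _ φ => φ.Bounded

/-- The class of formulas treated here: quantifier-free formulas and formulas `∀ x < t, θ` with
`θ` quantifier-free, closed under conjunction, disjunction and bounded or unbounded existential
quantification. -/
inductive OneAll : {n : ℕ} → Fm n → Prop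
  | qfree {n : ℕ} (θ : Fm n) (h : θ.QFree) : OneAll θ
  | allB {n : ℕ} (t : Tm (Fin n)) (θ : Fm (n + 1)) (h : θ.QFree) : OneAll (Fm.allB t θ)
  | and {n : ℕ} (φ ψ : Fm n) (h₁ : OneAll φ) (h₂ : OneAll ψ) : OneAll (Fm.and φ ψ)
  | or {n : ℕ} (φ ψ : Fm n) (h₁ : OneAll φ) (h₂ : OneAll ψ) : OneAll (Fm.or φ ψ)
  | ex {n : ℕ} (φ : Fm (n + 1)) (h : OneAll φ) : OneAll (Fm.ex φ)
  | exB {n : ℕ} (t : Tm (Fin n)) (φ : Fm (n + 1)) (h : OneAll φ) : OneAll (Fm.exB t φ)

/-- The basic axioms of Peano arithmetic for 0, 1, +, ·, <: the structure is the nonnegative part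
of a discretely ordered commutative ring. -/
structure Basic (M : Type) [Zero M] [One M] [Add M] [Mul M] [LT M] : Prop where
  add_assoc : ∀ x y z : M, (x + y) + z = x + (y + z)
  add_comm : ∀ x y : M, x + y = y + x
  mul_assoc : ∀ x y z : M, (x * y) * z = x * (y * z)
  mul_comm : ∀ x y : M, x * y = y * x
  mul_add : ∀ x y z : M, x * (y + z) = x * y + x * z
  add_zero : ∀ x : M, x + 0 = x
  mul_zero : ∀ x : M, x * 0 = 0
  mul_one : ∀ x : M, x * 1 = x
  lt_trans : ∀ x y z : M, x < y → y < z → x < z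
  lt_irrefl : ∀ x : M, ¬ x < x
  lt_total : ∀ x y : M, x < y ∨ x = y ∨ y < x
  add_lt_add : ∀ x y z : M, x < y → x + z < y + z
  mul_lt_mul : ∀ x y z : M, 0 < z → x < y → x * z < y * z
  sub : ∀ x y : M, x < y → ∃ z : M, x + z = y
  zero_lt_one : (0 : M) < 1
  discrete : ∀ x : M, 0 < x → x = 1 ∨ 1 < x
  nonneg : ∀ x : M, x = 0 ∨ 0 < x

/-- Models of IOpen: the basic axioms and the induction scheme for quantifier-free formulas
(with parameters). -/
structure ModelIOpen (M : Type) [Zero M] [One M] [Add M] [Mul M] [LT M] : Prop where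
  basic : Basic M
  ind : ∀ (n : ℕ) (φ : Fm (n + 1)), φ.QFree → ∀ v : Fin n → M,
    φ.sat (Fin.cons 0 v : Fin (n + 1) → M) →
    (∀ x : M, φ.sat (Fin.cons x v : Fin (n + 1) → M) →
      φ.sat (Fin.cons (x + 1) v : Fin (n + 1) → M)) →
    ∀ x : M, φ.sat (Fin.cons x v : Fin (n + 1) → M)

/-- Models of IΔ₀: the basic axioms and the induction scheme for bounded formulas
(with parameters). -/
structure ModelIDelta0 (M : Type) [Zero M] [One M] [Add M] [Mul M] [LT M] : Prop where
  basic : Basic M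
  ind : ∀ (n : ℕ) (φ : Fm (n + 1)), φ.Bounded → ∀ v : Fin n → M,
    φ.sat (Fin.cons 0 v : Fin (n + 1) → M) →
    (∀ x : M, φ.sat (Fin.cons x v : Fin (n + 1) → M) →
      φ.sat (Fin.cons (x + 1) v : Fin (n + 1) → M)) →
    ∀ x : M, φ.sat (Fin.cons x v : Fin (n + 1) → M)

theorem QFree.bounded {n : ℕ} (φ : Fm n) (h : φ.QFree) : φ.Bounded := by
  induction φ with
  | lt s t => trivial
  | eq s t => trivial
  | not φ ih => exact ih h
  | and φ ψ ih₁ ih₂ => exact ⟨ih₁ h.1, ih₂ h.2⟩
  | or φ ψ ih₁ ih₂ => exact ⟨ih₁ h.1, ih₂ h.2⟩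
  | ex φ ih => exact h.elim
  | all φ ih => exact h.elim
  | exB t φ ih => exact h.elim
  | allB t φ ih => exact h.elim

theorem ModelIDelta0.iopen {M : Type} [Zero M] [One M] [Add M] [Mul M] [LT M]
    (h : ModelIDelta0 M) : ModelIOpen M :=
  ⟨h.basic, fun n φ hφ => h.ind n φ (QFree.bounded φ hφ)⟩

end Pool.Agent.Lib.P28b
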