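import Pool.Agent.Lib.P28b.Open

/-! Finite differences of terms: a chain of differences of bounded length ends in an identity. -/

set_option autoImplicit false

namespace Pool.Agent.Lib.P28b

/-- The term `t(z+1)`. -/
def Tm.shift {n : ℕ} (t : Tm (Fin (n + 1))) : Tm (Fin (n + 1)) :=
  t.subst (Fin.cons (Tm.add (.var 0) .one) (fun i => .var i.succ))

theorem Tm.eval_shift {n : ℕ} {M : Type} [Zero M] [One M] [Add M] [Mul M]
    (t : Tm (Fin (n + 1))) (z : M) (v : Fin n → M) :
    t.shift.eval (Fin.cons z v : Fin (n + 1) → M) = t.eval (Fin.cons (z + 1) v) := by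
  unfold Tm.shift
  rw [Tm.eval_subst]
  congr 1
  funext i
  refine Fin.cases ?_ (fun j => ?_) i
  · rfl
  · rfl

/-- The left side of the difference of the pair `(s, t)`: `s(z+1) + t(z)`. -/
def dl {n : ℕ} (s t : Tm (Fin (n + 1))) : Tm (Fin (n + 1)) := .add s.shift t

/-- The right side of the difference of the pair `(s, t)`: `s(z) + t(z+1)`. -/
def dr {n : ℕ} (s t : Tm (Fin (n + 1))) : Tm (Fin (n + 1)) := .add s t.shift

/-- The `k`-th difference of the pair `(s, t)`. -/
def dk {n : ℕ} : ℕ → Tm (Fin (n + 1)) × Tm (Fin (n + 1)) → Tm (Fin (n + 1)) × Tm (Fin (n + 1))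
  | 0, p => p
  | k + 1, p => dk k (dl p.1 p.2, dr p.1 p.2)

/-- The pairs `(s, t)`, its difference, and so on, `k` pairs. -/
def chain {n : ℕ} : ℕ → Tm (Fin (n + 1)) × Tm (Fin (n + 1)) →
    List (Tm (Fin (n + 1)) × Tm (Fin (n + 1)))
  | 0, _ => []
  | k + 1, p => p :: chain k (dl p.1 p.2, dr p.1 p.2)

/-- The polynomial over the integers obtained from a term by fixing all variables but the
first. -/
noncomputable def Tm.poly {n : ℕ} (t : Tm (Fin (n + 1))) (v : Fin n → ℤ) : Polynomial ℤ :=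
  t.eval (Fin.cons Polynomial.X (fun i => Polynomial.C (v i)) : Fin (n + 1) → Polynomial ℤ)

theorem Tm.eval_poly {n : ℕ} (t : Tm (Fin (n + 1))) (v : Fin n → ℤ) (z : ℤ) :
    (t.poly v).eval z = t.eval (Fin.cons z v : Fin (n + 1) → ℤ) := by
  unfold Tm.poly
  induction t with
  | var a =>
      refine Fin.cases ?_ (fun j => ?_) a
      · simp [Tm.eval]
      · simp [Tm.eval]
  | zero => simp [Tm.eval]
  | one => simp [Tm.eval]
  | add s t ih₁ ih₂ => rw [Tm.eval, Tm.eval, Polynomial.eval_add, ih₁, ih₂]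
  | mul s t ih₁ ih₂ => rw [Tm.eval, Tm.eval, Polynomial.eval_mul, ih₁, ih₂]

theorem Tm.exists_bound {n : ℕ} (t : Tm (Fin (n + 1))) :
    ∃ d : ℕ, ∀ v : Fin n → ℤ, (t.poly v).natDegree ≤ d := by
  unfold Tm.poly
  induction t with
  | var a =>
      refine ⟨1, fun v => ?_⟩
      refine Fin.cases ?_ (fun j => ?_) a
      · simp [Tm.eval]
      · simp [Tm.eval]
  | zero => exact ⟨0, fun v => by simp [Tm.eval]⟩
  | one => exact ⟨0, fun v => by simp [Tm.eval]⟩
  | add s t ih₁ ih₂ =>
      obtain ⟨d, hd⟩ := ih₁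
      obtain ⟨e, he⟩ := ih₂
      exact ⟨max d e, fun v => (Polynomial.natDegree_add_le _ _).trans
        (max_le_max (hd v) (he v))⟩
  | mul s t ih₁ ih₂ =>
      obtain ⟨d, hd⟩ := ih₁
      obtain ⟨e, he⟩ := ih₂
      exact ⟨d + e, fun v => Polynomial.natDegree_mul_le.trans (add_le_add (hd v) (he v))⟩

theorem dk_eval {n : ℕ} (k : ℕ) (p : Tm (Fin (n + 1)) × Tm (Fin (n + 1))) (v : Fin n → ℤ)
    (z : ℤ) :
    (dk k p).1.eval (Fin.cons z v : Fin (n + 1) → ℤ) -
      (dk k p).2.eval (Fin.cons z v : Fin (n + 1) → ℤ) =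
      (fwdDiff (1 : ℤ))^[k] (fun z : ℤ => p.1.eval (Fin.cons z v : Fin (n + 1) → ℤ) -
        p.2.eval (Fin.cons z v : Fin (n + 1) → ℤ)) z := by
  induction k generalizing p with
  | zero => rfl
  | succ k ih =>
      rw [dk, ih, Function.iterate_succ_apply]
      have h1 : (fun z : ℤ => (dl p.1 p.2, dr p.1 p.2).1.eval
            (Fin.cons z v : Fin (n + 1) → ℤ) -
          (dl p.1 p.2, dr p.1 p.2).2.eval (Fin.cons z v : Fin (n + 1) → ℤ)) =
          fwdDiff (1 : ℤ) (fun z : ℤ => p.1.eval (Fin.cons z v : Fin (n + 1) → ℤ) -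
            p.2.eval (Fin.cons z v : Fin (n + 1) → ℤ)) := by
        funext z
        simp only [dl, dr, Tm.eval, Tm.eval_shift, fwdDiff]
        ring
      rw [h1]

/-- Two terms with the same values on the integers have the same values in every commutative
semiring. -/
theorem Tm.ext_int {α : Type} (s t : Tm α) (h : ∀ v : α → ℤ, s.eval v = t.eval v)
    {M : Type} [CommSemiring M] (v : α → M) : s.eval v = t.eval v := by
  have key : ∀ t : Tm α, ∀ {R : Type} [CommSemiring R] (w : α → R),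
      t.eval w = MvPolynomial.aeval w (t.eval (MvPolynomial.X : α → MvPolynomial α ℕ)) := by
    intro t R _ w
    induction t with
    | var a => simp [Tm.eval]
    | zero => simp [Tm.eval]
    | one => simp [Tm.eval]
    | add s t ih₁ ih₂ => simp [Tm.eval, ih₁, ih₂]
    | mul s t ih₁ ih₂ => simp [Tm.eval, ih₁, ih₂]
  have h1 : s.eval (MvPolynomial.X : α → MvPolynomial α ℕ) =
      t.eval (MvPolynomial.X : α → MvPolynomial α ℕ) := by
    have inj := MvPolynomial.map_injective (σ := α) (Nat.castRingHom ℤ) Nat.cast_injective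
    apply inj
    apply MvPolynomial.funext
    intro w
    have e : ∀ t : Tm α, MvPolynomial.eval w (MvPolynomial.map (Nat.castRingHom ℤ)
        (t.eval (MvPolynomial.X : α → MvPolynomial α ℕ))) = t.eval w := by
      intro t
      induction t with
      | var a => simp [Tm.eval]
      | zero => simp [Tm.eval]
      | one => simp [Tm.eval]
      | add s t ih₁ ih₂ => simp [Tm.eval, ih₁, ih₂]
      | mul s t ih₁ ih₂ => simp [Tm.eval, ih₁, ih₂]
    rw [e, e, h]
  rw [key s, key t, h1]

/-- The differences of a pair of terms vanish from some index on. -/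
theorem exists_vanish {n : ℕ} (p : Tm (Fin (n + 1)) × Tm (Fin (n + 1))) :
    ∃ k : ℕ, ∀ {M : Type} [CommSemiring M] (v : Fin (n + 1) → M),
      (dk k p).1.eval v = (dk k p).2.eval v := by
  obtain ⟨d, hd⟩ := p.1.exists_bound
  obtain ⟨e, he⟩ := p.2.exists_bound
  refine ⟨max d e + 1, ?_⟩
  intro M _ v
  apply Tm.ext_int
  intro w
  have hw : w = (Fin.cons (w 0) (fun i => w i.succ) : Fin (n + 1) → ℤ) := by
    funext i
    refine Fin.cases ?_ (fun j => ?_) i
    · rfl
    · rfl
  rw [hw, ← sub_eq_zero, dk_eval]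
  have h1 : (fun z : ℤ => p.1.eval (Fin.cons z (fun i => w i.succ) : Fin (n + 1) → ℤ) -
      p.2.eval (Fin.cons z (fun i => w i.succ) : Fin (n + 1) → ℤ)) =
      (p.1.poly (fun i => w i.succ) - p.2.poly (fun i => w i.succ)).eval := by
    funext z
    rw [Polynomial.eval_sub, Tm.eval_poly, Tm.eval_poly]
  rw [h1, Polynomial.fwdDiff_iter_eq_zero_of_degree_lt]
  · rfl
  · refine lt_of_le_of_lt (Polynomial.natDegree_sub_le _ _) ?_
    exact Nat.lt_succ_of_le (max_le_max (hd _) (he _))

end Pool.Agent.Lib.P28b
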