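import Pool.Agent.Lib.P28b.Split

/-! Relations which are uniformly Diophantine in all models of open induction. -/

set_option autoImplicit false
set_option linter.unusedSectionVars false
set_option linter.unusedVariables false

namespace Pool.Agent.Lib.P28b

/-- Models of open induction with their ordered semiring structure. -/
structure Mdl where
  C : Type
  [csr : CommSemiring C]
  [lo : LinearOrder C]
  [sor : IsStrictOrderedRing C]
  io : ModelIOpen C

attribute [instance] Mdl.csr Mdl.lo Mdl.sor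

/-- Relations given by one polynomial equation with existentially quantified variables, the same
in all models. -/
def Dio {α : Type} (R : ∀ M : Mdl, (α → M.C) → Prop) : Prop :=
  ∃ (β : Type) (_ : Finite β) (P Q : Tm (α ⊕ β)), ∀ (M : Mdl) (v : α → M.C),
    R M v ↔ ∃ y : β → M.C, P.eval (Sum.elim v y) = Q.eval (Sum.elim v y)

variable {α : Type}

theorem Dio.congr {R R' : ∀ M : Mdl, (α → M.C) → Prop} (h : Dio R)
    (hR : ∀ M v, R M v ↔ R' M v) : Dio R' := by
  obtain ⟨β, hβ, P, Q, h⟩ := h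
  exact ⟨β, hβ, P, Q, fun M v => (hR M v).symm.trans (h M v)⟩

theorem Dio.eq (s t : Tm α) : Dio (fun M v => s.eval v = t.eval v) := by
  refine ⟨Empty, inferInstance, s.map Sum.inl, t.map Sum.inl, fun M v => ?_⟩
  simp only [Tm.eval_map, Sum.elim_inl, exists_const]

theorem Dio.lt (s t : Tm α) : Dio (fun M v => s.eval v < t.eval v) := by
  refine ⟨Unit, inferInstance, .add (.add (s.map Sum.inl) (.var (.inr ()))) .one,
    t.map Sum.inl, fun M v => ?_⟩
  show s.eval v < t.eval v ↔ _
  rw [lt_iff_exists M.io]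
  simp only [Tm.eval, Tm.eval_map, Sum.elim_inl, Sum.elim_inr]
  constructor
  · rintro ⟨w, hw⟩
    exact ⟨fun _ => w, hw⟩
  · rintro ⟨y, hy⟩
    exact ⟨y (), hy⟩

section arith

variable {M : Type} [CommSemiring M] [LinearOrder M] [IsStrictOrderedRing M]

theorem sq_sum (hM : ModelIOpen M) (a b : M) :
    ∃ d, a * a + b * b = (a * b + a * b) + d * d ∧ (d = 0 → a = b) := by
  rcases le_total a b with h | h
  · obtain ⟨d, rfl⟩ := exists_add hM h
    exact ⟨d, by ring, fun h => by rw [h, add_zero]⟩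
  · obtain ⟨d, rfl⟩ := exists_add hM h
    exact ⟨d, by ring, fun h => by rw [h, add_zero]⟩

theorem and_iff (hM : ModelIOpen M) (a b c d : M) :
    (a = b ∧ c = d) ↔
      (a * a + b * b) + (c * c + d * d) = (a * b + a * b) + (c * d + c * d) := by
  constructor
  · rintro ⟨rfl, rfl⟩
    rfl
  · intro h
    obtain ⟨x, h1, h2⟩ := sq_sum hM a b
    obtain ⟨y, h3, h4⟩ := sq_sum hM c d
    rw [h1, h3] at h
    have h5 : ((a * b + a * b) + (c * d + c * d)) + (x * x + y * y) =
        ((a * b + a * b) + (c * d + c * d)) + 0 := by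
      calc ((a * b + a * b) + (c * d + c * d)) + (x * x + y * y)
          = a * b + a * b + x * x + (c * d + c * d + y * y) := by ring
        _ = ((a * b + a * b) + (c * d + c * d)) + 0 := by rw [h, add_zero]
    have h6 : x * x + y * y = 0 := add_left_cancel h5
    have hx : x = 0 := by
      by_contra hx
      have hx' : 0 < x := lt_of_le_of_ne (nonneg hM x) (Ne.symm hx)
      have : 0 < x * x + y * y :=
        add_pos_of_pos_of_nonneg (mul_pos hx' hx') (nonneg hM _)
      rw [h6] at this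
      exact lt_irrefl _ this
    have hy : y = 0 := by
      by_contra hy
      have hy' : 0 < y := lt_of_le_of_ne (nonneg hM y) (Ne.symm hy)
      have : 0 < x * x + y * y :=
        add_pos_of_nonneg_of_pos (nonneg hM _) (mul_pos hy' hy')
      rw [h6] at this
      exact lt_irrefl _ this
    exact ⟨h2 hx, h4 hy⟩

theorem or_iff' (hM : ModelIOpen M) (a b c d : M) :
    (a = b ∨ c = d) ↔ a * c + b * d = a * d + b * c := by
  have key : ∀ {a b c d : M}, a < b → c < d → a * c + b * d ≠ a * d + b * c := by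
    intro a b c d hab hcd h
    obtain ⟨x, rfl⟩ := exists_add hM hab.le
    obtain ⟨y, rfl⟩ := exists_add hM hcd.le
    have hx : 0 < x := pos_of_lt_add_right hab
    have hy : 0 < y := pos_of_lt_add_right hcd
    have h1 : (a * c + a * c + a * y + x * c) + x * y = (a * c + a * c + a * y + x * c) + 0 := by
      calc (a * c + a * c + a * y + x * c) + x * y = a * c + (a + x) * (c + y) := by ring
        _ = a * (c + y) + (a + x) * c := h
        _ = (a * c + a * c + a * y + x * c) + 0 := by ring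
    have h2 : x * y = 0 := add_left_cancel h1
    have h3 := mul_pos hx hy
    rw [h2] at h3
    exact lt_irrefl _ h3
  constructor
  · rintro (rfl | rfl)
    · ring
    · ring
  · intro h
    rcases lt_trichotomy a b with h1 | h1 | h1
    · rcases lt_trichotomy c d with h2 | h2 | h2
      · exact (key h1 h2 h).elim
      · exact Or.inr h2
      · exact (key h1 h2 h.symm).elim
    · exact Or.inl h1
    · rcases lt_trichotomy c d with h2 | h2 | h2
      · refine (key h1 h2 ?_).elim
        rw [add_comm, ← h, add_comm]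
      · exact Or.inr h2
      · refine (key h1 h2 ?_).elim
        rw [add_comm, h, add_comm]

end arith

theorem Dio.and {R S : ∀ M : Mdl, (α → M.C) → Prop} (hR : Dio R) (hS : Dio S) :
    Dio (fun M v => R M v ∧ S M v) := by
  obtain ⟨β, hβ, P, Q, h1⟩ := hR
  obtain ⟨γ, hγ, P', Q', h2⟩ := hS
  let f : α ⊕ β → α ⊕ (β ⊕ γ) := Sum.elim Sum.inl (fun b => Sum.inr (Sum.inl b))
  let g : α ⊕ γ → α ⊕ (β ⊕ γ) := Sum.elim Sum.inl (fun b => Sum.inr (Sum.inr b))
  have hf : ∀ {M : Type} (v : α → M) (y : β → M) (z : γ → M),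
      (fun a => Sum.elim v (Sum.elim y z) (f a)) = Sum.elim v y := by
    intro M v y z
    funext a
    rcases a with a | a <;> rfl
  have hg : ∀ {M : Type} (v : α → M) (y : β → M) (z : γ → M),
      (fun a => Sum.elim v (Sum.elim y z) (g a)) = Sum.elim v z := by
    intro M v y z
    funext a
    rcases a with a | a <;> rfl
  refine ⟨β ⊕ γ, inferInstance,
    .add (.add (.mul (P.map f) (P.map f)) (.mul (Q.map f) (Q.map f)))
      (.add (.mul (P'.map g) (P'.map g)) (.mul (Q'.map g) (Q'.map g))),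
    .add (.add (.mul (P.map f) (Q.map f)) (.mul (P.map f) (Q.map f)))
      (.add (.mul (P'.map g) (Q'.map g)) (.mul (P'.map g) (Q'.map g))), fun M v => ?_⟩
  show (R M v ∧ S M v) ↔ _
  rw [h1, h2]
  simp only [Tm.eval, Tm.eval_map]
  constructor
  · rintro ⟨⟨y, hy⟩, z, hz⟩
    refine ⟨Sum.elim y z, ?_⟩
    rw [hf, hg]
    exact (and_iff M.io _ _ _ _).1 ⟨hy, hz⟩
  · rintro ⟨y, hy⟩
    have hy' : y = Sum.elim (fun b => y (Sum.inl b)) (fun b => y (Sum.inr b)) := by
      funext a
      rcases a with a | a <;> rfl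
    rw [hy', hf, hg] at hy
    have h3 := (and_iff M.io _ _ _ _).2 hy
    exact ⟨⟨_, h3.1⟩, _, h3.2⟩

theorem Dio.or {R S : ∀ M : Mdl, (α → M.C) → Prop} (hR : Dio R) (hS : Dio S) :
    Dio (fun M v => R M v ∨ S M v) := by
  obtain ⟨β, hβ, P, Q, h1⟩ := hR
  obtain ⟨γ, hγ, P', Q', h2⟩ := hS
  let f : α ⊕ β → α ⊕ (β ⊕ γ) := Sum.elim Sum.inl (fun b => Sum.inr (Sum.inl b))
  let g : α ⊕ γ → α ⊕ (β ⊕ γ) := Sum.elim Sum.inl (fun b => Sum.inr (Sum.inr b))
  have hf : ∀ {M : Type} (v : α → M) (y : β → M) (z : γ → M),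
      (fun a => Sum.elim v (Sum.elim y z) (f a)) = Sum.elim v y := by
    intro M v y z
    funext a
    rcases a with a | a <;> rfl
  have hg : ∀ {M : Type} (v : α → M) (y : β → M) (z : γ → M),
      (fun a => Sum.elim v (Sum.elim y z) (g a)) = Sum.elim v z := by
    intro M v y z
    funext a
    rcases a with a | a <;> rfl
  refine ⟨β ⊕ γ, inferInstance,
    .add (.mul (P.map f) (P'.map g)) (.mul (Q.map f) (Q'.map g)),
    .add (.mul (P.map f) (Q'.map g)) (.mul (Q.map f) (P'.map g)), fun M v => ?_⟩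
  show (R M v ∨ S M v) ↔ _
  rw [h1, h2]
  simp only [Tm.eval, Tm.eval_map]
  constructor
  · rintro (⟨y, hy⟩ | ⟨z, hz⟩)
    · refine ⟨Sum.elim y (fun _ => 0), ?_⟩
      rw [hf, hg]
      exact (or_iff' M.io _ _ _ _).1 (Or.inl hy)
    · refine ⟨Sum.elim (fun _ => 0) z, ?_⟩
      rw [hf, hg]
      exact (or_iff' M.io _ _ _ _).1 (Or.inr hz)
  · rintro ⟨y, hy⟩
    have hy' : y = Sum.elim (fun b => y (Sum.inl b)) (fun b => y (Sum.inr b)) := by
      funext a
      rcases a with a | a <;> rfl
    rw [hy', hf, hg] at hy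
    rcases (or_iff' M.io _ _ _ _).2 hy with h3 | h3
    · exact Or.inl ⟨_, h3⟩
    · exact Or.inr ⟨_, h3⟩

theorem Dio.ex {R : ∀ M : Mdl, (Option α → M.C) → Prop} (hR : Dio R) :
    Dio (fun M v => ∃ x, R M (fun o => o.elim x v)) := by
  obtain ⟨β, hβ, P, Q, h⟩ := hR
  let f : Option α ⊕ β → α ⊕ Option β :=
    Sum.elim (fun o => o.elim (Sum.inr none) Sum.inl) (fun b => Sum.inr (some b))
  have hf : ∀ {M : Type} (v : α → M) (x : M) (y : β → M),
      (fun a => Sum.elim v (fun o : Option β => o.elim x y) (f a)) =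
        Sum.elim (fun o : Option α => o.elim x v) y := by
    intro M v x y
    funext a
    rcases a with (_ | a) | a <;> rfl
  refine ⟨Option β, inferInstance, P.map f, Q.map f, fun M v => ?_⟩
  simp only [Tm.eval_map]
  constructor
  · rintro ⟨x, hx⟩
    obtain ⟨y, hy⟩ := (h M _).1 hx
    refine ⟨fun o => o.elim x y, ?_⟩
    rw [hf]
    exact hy
  · rintro ⟨y, hy⟩
    have hy' : y = (fun o : Option β => o.elim (y none) (fun b => y (some b))) := by
      funext a
      rcases a with _ | a <;> rfl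
    rw [hy', hf] at hy
    exact ⟨y none, (h M _).2 ⟨_, hy⟩⟩

theorem Dio.le (s t : Tm α) : Dio (fun M v => s.eval v ≤ t.eval v) :=
  ((Dio.lt s t).or (Dio.eq s t)).congr fun M v => le_iff_lt_or_eq.symm

theorem Dio.true : Dio (fun (M : Mdl) (v : α → M.C) => True) :=
  (Dio.eq Tm.zero Tm.zero).congr fun M v => ⟨fun _ => trivial, fun _ => rfl⟩

theorem Dio.listAll {ι : Type} (L : List ι) (R : ι → ∀ M : Mdl, (α → M.C) → Prop)
    (h : ∀ i, Dio (R i)) : Dio (fun M v => ∀ i ∈ L, R i M v) := by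
  induction L with
  | nil =>
      exact Dio.true.congr fun M v => ⟨fun _ i hi => absurd hi (by simp), fun _ => trivial⟩
  | cons i L ih =>
      exact ((h i).and ih).congr fun M v => by
        rw [List.forall_mem_cons]

theorem Dio.cmp (s t s' t' : Tm α) :
    Dio (fun M v => cmp (s.eval v) (t.eval v) = cmp (s'.eval v) (t'.eval v)) := by
  refine (((Dio.lt s t).and (Dio.lt s' t')).or (((Dio.eq s t).and (Dio.eq s' t')).or
    ((Dio.lt t s).and (Dio.lt t' s')))).congr fun M v => ?_
  constructor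
  · rintro (⟨h1, h2⟩ | ⟨h1, h2⟩ | ⟨h1, h2⟩)
    · rw [(cmp_eq_lt_iff _ _).2 h1, (cmp_eq_lt_iff _ _).2 h2]
    · rw [(cmp_eq_eq_iff _ _).2 h1, (cmp_eq_eq_iff _ _).2 h2]
    · rw [(cmp_eq_gt_iff _ _).2 h1, (cmp_eq_gt_iff _ _).2 h2]
  · intro h
    rcases hc : _root_.cmp (s.eval v) (t.eval v) with _ | _ | _
    · have h2 := h.symm.trans hc
      exact Or.inl ⟨(cmp_eq_lt_iff _ _).1 hc, (cmp_eq_lt_iff _ _).1 h2⟩
    · have h2 := h.symm.trans hc
      exact Or.inr (Or.inl ⟨(cmp_eq_eq_iff _ _).1 hc, (cmp_eq_eq_iff _ _).1 h2⟩)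
    · have h2 := h.symm.trans hc
      exact Or.inr (Or.inr ⟨(cmp_eq_gt_iff _ _).1 hc, (cmp_eq_gt_iff _ _).1 h2⟩)

/-- Quantifier-free formulas and their negations. -/
theorem Dio.qfree {m : ℕ} (θ : Fm m) (hθ : θ.QFree) (ρ : Fin m → Tm α) :
    Dio (fun M v => θ.sat (fun i => (ρ i).eval v)) ∧
      Dio (fun M v => ¬ θ.sat (fun i => (ρ i).eval v)) := by
  induction θ with
  | lt s t =>
      constructor
      · refine (Dio.lt (s.subst ρ) (t.subst ρ)).congr fun M v => ?_
        rw [Tm.eval_subst, Tm.eval_subst]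
        rfl
      · refine (Dio.le (t.subst ρ) (s.subst ρ)).congr fun M v => ?_
        rw [Tm.eval_subst, Tm.eval_subst]
        exact not_lt.symm
  | eq s t =>
      constructor
      · refine (Dio.eq (s.subst ρ) (t.subst ρ)).congr fun M v => ?_
        rw [Tm.eval_subst, Tm.eval_subst]
        rfl
      · refine ((Dio.lt (t.subst ρ) (s.subst ρ)).or
          (Dio.lt (s.subst ρ) (t.subst ρ))).congr fun M v => ?_
        rw [Tm.eval_subst, Tm.eval_subst]
        exact lt_or_lt_iff_ne.trans ne_comm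
  | not φ ih =>
      obtain ⟨h1, h2⟩ := ih hθ ρ
      exact ⟨h2, h1.congr fun M v => not_not.symm⟩
  | and φ ψ ih₁ ih₂ =>
      obtain ⟨h1, h2⟩ := ih₁ hθ.1 ρ
      obtain ⟨h3, h4⟩ := ih₂ hθ.2 ρ
      exact ⟨h1.and h3, (h2.or h4).congr fun M v => not_and_or.symm⟩
  | or φ ψ ih₁ ih₂ =>
      obtain ⟨h1, h2⟩ := ih₁ hθ.1 ρ
      obtain ⟨h3, h4⟩ := ih₂ hθ.2 ρ
      exact ⟨h1.or h3, (h2.and h4).congr fun M v => not_or.symm⟩
  | ex φ ih => exact hθ.elim
  | all φ ih => exact hθ.elim
  | exB t φ ih => exact hθ.elim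
  | allB t φ ih => exact hθ.elim

theorem cons_eval {n : ℕ} {M : Type} [Zero M] [One M] [Add M] [Mul M] (s : Tm α)
    (ρ : Fin n → Tm α) (v : α → M) :
    (Fin.cons (s.eval v) (fun i => (ρ i).eval v) : Fin (n + 1) → M) =
      fun i => ((Fin.cons s ρ : Fin (n + 1) → Tm α) i).eval v := by
  funext i
  refine Fin.cases ?_ (fun j => ?_) i
  · rfl
  · rfl

/-- A term of the larger context. -/
def up (s : Tm α) : Tm (Option α) := s.map some

theorem eval_up {M : Type} [Zero M] [One M] [Add M] [Mul M] (s : Tm α) (x : M) (v : α → M) :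
    (up s).eval (fun o : Option α => o.elim x v) = s.eval v := by
  unfold up
  rw [Tm.eval_map]
  rfl

theorem Dio.cert {n : ℕ} (L : List (Tm (Fin (n + 1)) × Tm (Fin (n + 1)))) (θ : Fm (n + 1))
    (hθ : θ.QFree) (ρ : Fin n → Tm α) (s t : Tm α) :
    Dio (fun M v => Cert (fun i => (ρ i).eval v) L θ (s.eval v) (t.eval v)) := by
  refine (Dio.eq s t).or ?_
  have h1 := (Dio.eq (α := Option α) (.add (.var none) .one) (up t)).and
    ((Dio.le (up s) (.var none)).and
      ((Dio.listAll L (fun p M (w : Option α → M.C) => cv (fun i => (up (ρ i)).eval w) p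
          ((up s).eval w) = cv (fun i => (up (ρ i)).eval w) p (w none)) ?_).and
        (Dio.qfree θ hθ (Fin.cons (up s) (fun i => up (ρ i)))).1))
  · refine h1.ex.congr fun M v => exists_congr fun c => ?_
    simp only [← cons_eval, eval_up, Tm.eval, Option.elim_none]
  · intro p
    refine (Dio.cmp (p.1.subst (Fin.cons (up s) (fun i => up (ρ i))))
      (p.2.subst (Fin.cons (up s) (fun i => up (ρ i))))
      (p.1.subst (Fin.cons (.var none) (fun i => up (ρ i))))
      (p.2.subst (Fin.cons (.var none) (fun i => up (ρ i))))).congr fun M w => ?_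
    simp only [Tm.eval_subst, ← cons_eval, cv]
    rfl

theorem Dio.split {n : ℕ}
    (P : ∀ M : Mdl, (Fin n → M.C) → M.C → M.C → Prop)
    (hP : ∀ {α : Type} (ρ : Fin n → Tm α) (s t : Tm α),
      Dio (fun M v => P M (fun i => (ρ i).eval v) (s.eval v) (t.eval v))) (r : ℕ) :
    ∀ {α : Type} (ρ : Fin n → Tm α) (s t : Tm α),
      Dio (fun M v => Split (P M (fun i => (ρ i).eval v)) r (s.eval v) (t.eval v)) := by
  induction r with
  | zero => exact fun ρ s t => Dio.eq s t
  | succ r ih =>
      intro α ρ s t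
      have h1 := (Dio.le (up s) (.var none)).and ((Dio.le (.var none) (up t)).and
        ((hP (fun i => up (ρ i)) (up s) (.var none)).and
          (ih (fun i => up (ρ i)) (.var none) (up t))))
      refine h1.ex.congr fun M v => ?_
      simp only [eval_up, Tm.eval, Option.elim_none]
      rfl

theorem Dio.oneAll {m : ℕ} (φ : Fm m) (hφ : OneAll φ) :
    ∀ {α : Type} (ρ : Fin m → Tm α), Dio (fun M v => φ.sat (fun i => (ρ i).eval v)) := by
  induction hφ with
  | qfree θ h => exact fun ρ => (Dio.qfree θ h ρ).1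
  | allB t θ h =>
      intro α ρ
      refine (Dio.split (fun M v => Cert v (fullL (atoms θ)) θ)
        (fun ρ s t => Dio.cert _ θ h ρ s t) (rr (atoms θ)) ρ .zero (t.subst ρ)).congr
        fun M v => ?_
      rw [Tm.eval_subst]
      exact (all_iff M.io (fun i => (ρ i).eval v) θ h _).symm
  | and φ ψ h₁ h₂ ih₁ ih₂ => exact fun ρ => (ih₁ ρ).and (ih₂ ρ)
  | or φ ψ h₁ h₂ ih₁ ih₂ => exact fun ρ => (ih₁ ρ).or (ih₂ ρ)
  | ex φ h ih =>
      intro α ρ
      refine (ih (Fin.cons (.var none) (fun i => up (ρ i)))).ex.congr fun M v =>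
        exists_congr fun x => ?_
      simp only [← cons_eval, eval_up, Tm.eval, Option.elim_none]
  | exB t φ h ih =>
      intro α ρ
      refine ((Dio.lt (.var none) (up (t.subst ρ))).and
        (ih (Fin.cons (.var none) (fun i => up (ρ i))))).ex.congr fun M v =>
        exists_congr fun x => ?_
      simp only [← cons_eval, eval_up, Tm.eval, Option.elim_none, Tm.eval_subst]

end Pool.Agent.Lib.P28b
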