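import Pool.Agent.Lib.P28b.Diff

/-! Monotonicity by open induction, the two-point test, cutting an interval into pieces. -/

set_option autoImplicit false
set_option linter.unusedSectionVars false
set_option linter.unusedVariables false

namespace Pool.Agent.Lib.P28b

variable {M : Type} [CommSemiring M] [LinearOrder M] [IsStrictOrderedRing M]

/-- If the difference of `p - q` is nonnegative on `[a, c)`, then `p - q` is at least its value
at `a` on `[a, c]`. -/
theorem mono_base (hM : ModelIOpen M) {p q : M → M} (hp : PF p) (hq : PF q) {a c : M}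
    (h : ∀ z, a ≤ z → z < c → p z + q (z + 1) ≤ p (z + 1) + q z) :
    ∀ z, a ≤ z → z ≤ c → p a + q z ≤ p z + q a := by
  have key : ∀ w : M, c < a + w ∨ p a + q (a + w) ≤ p (a + w) + q a := by
    refine openInd hM (S := fun w : M => c < a + w ∨ p a + q (a + w) ≤ p (a + w) + q a)
      ?_ ?_ ?_
    · have h1 : PF (fun w : M => a + w) := (PF.const a).add PF.id
      refine OSet.or _ _ (OSet.lt _ _ (PF.const c) h1) (OSet.le _ _ ?_ ?_)
      · exact (PF.const _).add (hq.comp h1)
      · exact (hp.comp h1).add (PF.const _)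
    · right
      rw [add_zero]
    · intro w hw
      rcases hw with hw | hw
      · left
        rw [← add_assoc]
        exact hw.trans (lt_add_one' _)
      · by_cases hc : c < a + (w + 1)
        · exact Or.inl hc
        · right
          have h1 : a + w < c := lt_of_lt_of_le (by rw [← add_assoc]; exact lt_add_one' _)
            (not_lt.1 hc)
          have h2 := h (a + w) (le_add_of_nonneg_right (nonneg hM w)) h1
          rw [← add_assoc]
          have h3 := add_le_add hw h2
          have h4 : (p (a + w) + q (a + w)) + (p a + q (a + w + 1)) ≤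
              (p (a + w) + q (a + w)) + (p (a + w + 1) + q a) := by
            calc (p (a + w) + q (a + w)) + (p a + q (a + w + 1))
                = p a + q (a + w) + (p (a + w) + q (a + w + 1)) := by ring
              _ ≤ p (a + w) + q a + (p (a + w + 1) + q (a + w)) := h3
              _ = (p (a + w) + q (a + w)) + (p (a + w + 1) + q a) := by ring
          exact le_of_add_le_add_left h4
  intro z haz hzc
  obtain ⟨w, rfl⟩ := exists_add hM haz
  rcases key w with h1 | h1
  · exact absurd h1 (not_lt.2 hzc)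
  · exact h1

/-- Monotonicity of `p - q` on `[a, c]`. -/
theorem mono (hM : ModelIOpen M) {p q : M → M} (hp : PF p) (hq : PF q) {a c : M}
    (h : ∀ z, a ≤ z → z < c → p z + q (z + 1) ≤ p (z + 1) + q z)
    {y z : M} (hay : a ≤ y) (hyz : y ≤ z) (hzc : z ≤ c) : p y + q z ≤ p z + q y :=
  mono_base hM hp hq (fun w h1 h2 => h w (hay.trans h1) h2) z hyz hzc

/-- The comparison of the pair `p` of terms at `z`. -/
def cv {n : ℕ} (v : Fin n → M) (p : Tm (Fin (n + 1)) × Tm (Fin (n + 1))) (z : M) : Ordering :=
  cmp (p.1.eval (Fin.cons z v : Fin (n + 1) → M)) (p.2.eval (Fin.cons z v : Fin (n + 1) → M))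

theorem cv_dd {n : ℕ} (v : Fin n → M) (p : Tm (Fin (n + 1)) × Tm (Fin (n + 1))) (z : M) :
    cv v (dl p.1 p.2, dr p.1 p.2) z =
      cmp (p.1.eval (Fin.cons (z + 1) v : Fin (n + 1) → M) +
          p.2.eval (Fin.cons z v : Fin (n + 1) → M))
        (p.1.eval (Fin.cons z v : Fin (n + 1) → M) +
          p.2.eval (Fin.cons (z + 1) v : Fin (n + 1) → M)) := by
  simp only [cv, dl, dr, Tm.eval, Tm.eval_shift]

/-- If the difference of a pair has constant sign on `[a, c)`, then the pair is monotone on
`[a, c]`: either increasing or decreasing. -/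
theorem mono_or (hM : ModelIOpen M) {n : ℕ} (v : Fin n → M)
    (p : Tm (Fin (n + 1)) × Tm (Fin (n + 1))) {a c : M}
    (h : ∀ z z', a ≤ z → z < c → a ≤ z' → z' < c →
      cv v (dl p.1 p.2, dr p.1 p.2) z = cv v (dl p.1 p.2, dr p.1 p.2) z') :
    (∀ y z, a ≤ y → y ≤ z → z ≤ c →
      p.1.eval (Fin.cons y v : Fin (n + 1) → M) + p.2.eval (Fin.cons z v : Fin (n + 1) → M) ≤
      p.1.eval (Fin.cons z v : Fin (n + 1) → M) + p.2.eval (Fin.cons y v : Fin (n + 1) → M)) ∨
    (∀ y z, a ≤ y → y ≤ z → z ≤ c →
      p.2.eval (Fin.cons y v : Fin (n + 1) → M) + p.1.eval (Fin.cons z v : Fin (n + 1) → M) ≤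
      p.2.eval (Fin.cons z v : Fin (n + 1) → M) + p.1.eval (Fin.cons y v : Fin (n + 1) → M)) := by
  have hp : PF (fun z => p.1.eval (Fin.cons z v : Fin (n + 1) → M)) := PF.of_term _ _
  have hq : PF (fun z => p.2.eval (Fin.cons z v : Fin (n + 1) → M)) := PF.of_term _ _
  by_cases hac : a < c
  · rcases hcv : cv v (dl p.1 p.2, dr p.1 p.2) a with _ | _ | _
    · -- lt: decreasing
      right
      intro y z hay hyz hzc
      refine mono hM hq hp (a := a) (c := c) ?_ hay hyz hzc
      intro w haw hwc
      have h1 := (h w a haw hwc le_rfl hac).trans hcv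
      rw [cv_dd, cmp_eq_lt_iff] at h1
      calc _ = p.1.eval (Fin.cons (w + 1) v : Fin (n + 1) → M) +
            p.2.eval (Fin.cons w v : Fin (n + 1) → M) := add_comm _ _
        _ ≤ _ := le_of_lt h1
        _ = _ := add_comm _ _
    · left
      intro y z hay hyz hzc
      refine mono hM hp hq (a := a) (c := c) ?_ hay hyz hzc
      intro w haw hwc
      have h1 := (h w a haw hwc le_rfl hac).trans hcv
      rw [cv_dd, cmp_eq_eq_iff] at h1
      exact h1.ge
    · left
      intro y z hay hyz hzc
      refine mono hM hp hq (a := a) (c := c) ?_ hay hyz hzc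
      intro w haw hwc
      have h1 := (h w a haw hwc le_rfl hac).trans hcv
      rw [cv_dd, cmp_eq_gt_iff] at h1
      exact le_of_lt h1
  · left
    intro y z hay hyz hzc
    have h1 : y = z := le_antisymm hyz ((hzc.trans (not_lt.1 hac)).trans hay)
    rw [h1]

/-- If `p - q` increases from `y` to `z` to `w` and has the same sign at `y` and `w`, then it has
that sign at `z`. -/
theorem cmp_between {p1 q1 p2 q2 p3 q3 : M} (h12 : p1 + q2 ≤ p2 + q1) (h23 : p2 + q3 ≤ p3 + q2)
    (h : cmp p1 q1 = cmp p3 q3) : cmp p2 q2 = cmp p1 q1 := by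
  rcases lt_trichotomy p1 q1 with h1 | h1 | h1
  · have h3 : p3 < q3 := by
      rw [← cmp_eq_lt_iff, ← h, cmp_eq_lt_iff]; exact h1
    have h2 : p2 < q2 := by
      by_contra h2
      have h4 : q2 ≤ p2 := not_lt.1 h2
      have h5 : p2 + q3 ≤ p3 + p2 := h23.trans (add_le_add le_rfl h4)
      have h6 : p2 + p3 < p2 + q3 := add_lt_add_of_le_of_lt le_rfl h3
      rw [add_comm p3 p2] at h5
      exact absurd h5 (not_le.2 h6)
    rw [(cmp_eq_lt_iff _ _).2 h2, (cmp_eq_lt_iff _ _).2 h1]
  · have h3 : p3 = q3 := by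
      rw [← cmp_eq_eq_iff, ← h, cmp_eq_eq_iff]; exact h1
    have h2 : p2 = q2 := by
      subst h1; subst h3
      have h4 : q2 ≤ p2 := by
        rw [add_comm p2 p1] at h12
        exact le_of_add_le_add_left h12
      have h5 : p2 ≤ q2 := by
        rw [add_comm p2 p3] at h23
        exact le_of_add_le_add_left h23
      exact le_antisymm h5 h4
    rw [(cmp_eq_eq_iff _ _).2 h2, (cmp_eq_eq_iff _ _).2 h1]
  · have h2 : q2 < p2 := by
      by_contra h2
      have h4 : p2 ≤ q2 := not_lt.1 h2
      have h5 : p1 + p2 ≤ p2 + q1 := (add_le_add le_rfl h4).trans h12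
      have h6 : p2 + q1 < p2 + p1 := add_lt_add_of_le_of_lt le_rfl h1
      rw [add_comm p1 p2] at h5
      exact absurd h5 (not_le.2 h6)
    rw [(cmp_eq_gt_iff _ _).2 h2, (cmp_eq_gt_iff _ _).2 h1]

/-- The two-point test: if all comparisons in the chain agree at `a` and at `c`, then the pair
has the same comparison everywhere in `[a, c]`. -/
theorem two_point (hM : ModelIOpen M) {n : ℕ} (v : Fin n → M) (k : ℕ)
    (p : Tm (Fin (n + 1)) × Tm (Fin (n + 1)))
    (hk : ∀ w : Fin (n + 1) → M, (dk k p).1.eval w = (dk k p).2.eval w) {a c : M}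
    (h : ∀ q ∈ chain k p, cv v q a = cv v q c) :
    ∀ z, a ≤ z → z ≤ c → cv v p z = cv v p a := by
  induction k generalizing p with
  | zero =>
      intro z _ _
      have h1 : ∀ z, cv v p z = Ordering.eq := fun z => (cmp_eq_eq_iff _ _).2 (hk _)
      rw [h1, h1]
  | succ k ih =>
      intro z haz hzc
      have h1 := ih (dl p.1 p.2, dr p.1 p.2) hk (fun q hq => h q (List.mem_cons_of_mem _ hq))
      have h2 : cv v p a = cv v p c := h p List.mem_cons_self
      have h3 := mono_or hM v p (a := a) (c := c) (fun z z' hz hzc hz' hzc' => by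
        rw [h1 z hz hzc.le, h1 z' hz' hzc'.le])
      rcases h3 with h3 | h3
      · exact cmp_between (h3 a z le_rfl haz hzc) (h3 z c haz hzc le_rfl) h2
      · have h4 := cmp_between (h3 a z le_rfl haz hzc) (h3 z c haz hzc le_rfl) (by
          have := congrArg Ordering.swap h2
          simp only [cv, cmp_swap] at this
          exact this)
        have h5 := congrArg Ordering.swap h4
        simp only [cmp_swap] at h5
        exact h5

/-- Cutting an interval at the lower end of an open set which is closed upwards in it. -/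
theorem cut (hM : ModelIOpen M) {S : M → Prop} (hS : OSet S) {a b : M} (hab : a ≤ b)
    (h : ∀ z z', a ≤ z → z ≤ z' → z' < b → S z → S z') :
    ∃ e, a ≤ e ∧ e ≤ b ∧ (∀ z, a ≤ z → z < e → ¬ S z) ∧ ∀ z, e ≤ z → z < b → S z := by
  have hT : OSet (fun w : M => b ≤ a + w ∨ ¬ S (a + w)) := by
    have h1 : PF (fun w : M => a + w) := (PF.const a).add PF.id
    refine OSet.or _ _ (OSet.le _ _ (PF.const b) h1) (OSet.not _ ?_)
    clear h
    induction hS with
    | lt f g hf hg => exact OSet.lt _ _ (hf.comp h1) (hg.comp h1)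
    | eq f g hf hg => exact OSet.eq _ _ (hf.comp h1) (hg.comp h1)
    | not S _ ih => exact OSet.not _ ih
    | and S T _ _ ih₁ ih₂ => exact OSet.and _ _ ih₁ ih₂
    | or S T _ _ ih₁ ih₂ => exact OSet.or _ _ ih₁ ih₂
  by_cases h0 : b ≤ a + 0 ∨ ¬ S (a + 0)
  · by_cases hs : ∀ w, (b ≤ a + w ∨ ¬ S (a + w)) → (b ≤ a + (w + 1) ∨ ¬ S (a + (w + 1)))
    · refine ⟨b, hab, le_rfl, ?_, ?_⟩
      · intro z haz hzb
        obtain ⟨w, rfl⟩ := exists_add hM haz
        rcases openInd hM hT h0 hs w with h1 | h1
        · exact absurd h1 (not_le.2 hzb)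
        · exact h1
      · intro z hbz hzb
        exact absurd hbz (not_le.2 hzb)
    · push Not at hs
      obtain ⟨w, h1, h2, h3⟩ := hs
      have h4 : a + w < b := lt_trans (by rw [← add_assoc]; exact lt_add_one' _) h2
      have h5 : ¬ S (a + w) := by
        rcases h1 with h1 | h1
        · exact absurd h1 (not_le.2 h4)
        · exact h1
      refine ⟨a + (w + 1), le_add_of_nonneg_right (nonneg hM _), h2.le, ?_, ?_⟩
      · intro z haz hzw hz
        have h6 : z ≤ a + w := by
          by_contra h6
          have h7 := add_one_le hM (not_le.1 h6)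
          rw [← add_assoc] at hzw
          exact absurd h7 (not_le.2 hzw)
        exact h5 (h z (a + w) haz h6 h4 hz)
      · intro z hz hzb
        exact h (a + (w + 1)) z (le_add_of_nonneg_right (nonneg hM _)) hz hzb h3
  · push Not at h0
    rw [add_zero] at h0
    refine ⟨a, le_rfl, hab, ?_, ?_⟩
    · intro z haz hza
      exact absurd haz (not_le.2 hza)
    · intro z haz hzb
      exact h a z le_rfl haz hzb h0.2

end Pool.Agent.Lib.P28b
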