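import Pool.Agent.Lib.P28b.Basic

/-! Substitution of terms, polynomial functions with parameters, open sets, open induction. -/

set_option autoImplicit false
set_option linter.unusedSectionVars false
set_option linter.unusedVariables false

namespace Pool.Agent.Lib.P28b

/-! ### substitution -/

/-- Substitution of terms for the variables. -/
def Tm.subst {α β : Type} (σ : α → Tm β) : Tm α → Tm β
  | .var a => σ a
  | .zero => .zero
  | .one => .one
  | .add s t => .add (s.subst σ) (t.subst σ)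
  | .mul s t => .mul (s.subst σ) (t.subst σ)

/-- Renaming of the variables. -/
def Tm.map {α β : Type} (f : α → β) (t : Tm α) : Tm β := t.subst (fun a => .var (f a))

theorem Tm.eval_subst {α β M : Type} [Zero M] [One M] [Add M] [Mul M] (σ : α → Tm β) (v : β → M)
    (t : Tm α) : (t.subst σ).eval v = t.eval (fun a => (σ a).eval v) := by
  induction t with
  | var a => rfl
  | zero => rfl
  | one => rfl
  | add s t ih₁ ih₂ => simp only [Tm.subst, Tm.eval, ih₁, ih₂]
  | mul s t ih₁ ih₂ => simp only [Tm.subst, Tm.eval, ih₁, ih₂]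

theorem Tm.eval_map {α β M : Type} [Zero M] [One M] [Add M] [Mul M] (f : α → β) (v : β → M)
    (t : Tm α) : (t.map f).eval v = t.eval (fun a => v (f a)) := by
  unfold Tm.map
  rw [Tm.eval_subst]
  rfl

/-- Renaming in quantifier-free formulas. -/
theorem QFree.rename {M : Type} [Zero M] [One M] [Add M] [Mul M] [LT M] {n : ℕ} (φ : Fm n)
    (hφ : φ.QFree) {m : ℕ} (ρ : Fin n → Fin m) :
    ∃ ψ : Fm m, ψ.QFree ∧ ∀ v : Fin m → M, ψ.sat v ↔ φ.sat (fun i => v (ρ i)) := by
  induction φ with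
  | lt s t =>
      refine ⟨.lt (s.map ρ) (t.map ρ), trivial, fun v => ?_⟩
      simp only [Fm.sat, Tm.eval_map]
  | eq s t =>
      refine ⟨.eq (s.map ρ) (t.map ρ), trivial, fun v => ?_⟩
      simp only [Fm.sat, Tm.eval_map]
  | not φ ih =>
      obtain ⟨ψ, h₁, h₂⟩ := ih hφ ρ
      exact ⟨.not ψ, h₁, fun v => not_congr (h₂ v)⟩
  | and φ φ' ih ih' =>
      obtain ⟨ψ, h₁, h₂⟩ := ih hφ.1 ρ
      obtain ⟨ψ', h₁', h₂'⟩ := ih' hφ.2 ρ
      exact ⟨.and ψ ψ', ⟨h₁, h₁'⟩, fun v => and_congr (h₂ v) (h₂' v)⟩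
  | or φ φ' ih ih' =>
      obtain ⟨ψ, h₁, h₂⟩ := ih hφ.1 ρ
      obtain ⟨ψ', h₁', h₂'⟩ := ih' hφ.2 ρ
      exact ⟨.or ψ ψ', ⟨h₁, h₁'⟩, fun v => or_congr (h₂ v) (h₂' v)⟩
  | ex φ ih => exact hφ.elim
  | all φ ih => exact hφ.elim
  | exB t φ ih => exact hφ.elim
  | allB t φ ih => exact hφ.elim

section model

variable {M : Type} [CommSemiring M] [LinearOrder M] [IsStrictOrderedRing M]

/-- Polynomial functions with parameters. -/
def PF (f : M → M) : Prop :=
  ∃ (n : ℕ) (t : Tm (Fin (n + 1))) (v : Fin n → M),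
    ∀ x, f x = t.eval (Fin.cons x v : Fin (n + 1) → M)

theorem PF.const (c : M) : PF (fun _ : M => c) :=
  ⟨1, .var 1, fun _ => c, fun x => rfl⟩

theorem PF.id : PF (fun x : M => x) :=
  ⟨0, .var 0, Fin.elim0, fun x => rfl⟩

/-- Two polynomial functions can be written with the same parameters. -/
theorem PF.common {f g : M → M} (hf : PF f) (hg : PF g) :
    ∃ (n : ℕ) (s t : Tm (Fin (n + 1))) (v : Fin n → M),
      (∀ x, f x = s.eval (Fin.cons x v : Fin (n + 1) → M)) ∧
      (∀ x, g x = t.eval (Fin.cons x v : Fin (n + 1) → M)) := by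
  obtain ⟨n, s, v, hs⟩ := hf
  obtain ⟨m, t, w, ht⟩ := hg
  refine ⟨n + m, s.map (Fin.cons 0 (fun i => (Fin.castAdd m i).succ)),
    t.map (Fin.cons 0 (fun i => (Fin.natAdd n i).succ)), Fin.append v w, ?_, ?_⟩
  · intro x
    rw [hs, Tm.eval_map]
    congr 1
    funext i
    refine Fin.cases ?_ (fun j => ?_) i
    · simp
    · simp
  · intro x
    rw [ht, Tm.eval_map]
    congr 1
    funext i
    refine Fin.cases ?_ (fun j => ?_) i
    · simp
    · simp

theorem PF.add {f g : M → M} (hf : PF f) (hg : PF g) : PF (fun x => f x + g x) := by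
  obtain ⟨n, s, t, v, hs, ht⟩ := hf.common hg
  exact ⟨n, .add s t, v, fun x => by show f x + g x = _; rw [hs, ht]; rfl⟩

theorem PF.mul {f g : M → M} (hf : PF f) (hg : PF g) : PF (fun x => f x * g x) := by
  obtain ⟨n, s, t, v, hs, ht⟩ := hf.common hg
  exact ⟨n, .mul s t, v, fun x => by show f x * g x = _; rw [hs, ht]; rfl⟩

theorem PF.eval {α : Type} (t : Tm α) (w : M → α → M) (hw : ∀ a, PF (fun x => w x a)) :
    PF (fun x => t.eval (w x)) := by
  induction t with
  | var a => exact hw a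
  | zero => exact PF.const 0
  | one => exact PF.const 1
  | add s t ih₁ ih₂ => exact ih₁.add ih₂
  | mul s t ih₁ ih₂ => exact ih₁.mul ih₂

theorem PF.comp {f g : M → M} (hf : PF f) (hg : PF g) : PF (fun x => f (g x)) := by
  obtain ⟨n, s, v, hs⟩ := hf
  have := PF.eval s (fun x => (Fin.cons (g x) v : Fin (n + 1) → M)) (by
    intro a
    refine Fin.cases ?_ (fun j => ?_) a
    · simpa using hg
    · simpa using PF.const (v j))
  simpa only [hs] using this

/-- A term in which one variable runs and the others are fixed. -/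
theorem PF.of_term {n : ℕ} (t : Tm (Fin (n + 1))) (v : Fin n → M) :
    PF (fun x => t.eval (Fin.cons x v : Fin (n + 1) → M)) := ⟨n, t, v, fun _ => rfl⟩

/-- Open sets: definable by quantifier-free formulas with parameters. -/
inductive OSet : (M → Prop) → Prop
  | lt (f g : M → M) (hf : PF f) (hg : PF g) : OSet (fun x => f x < g x)
  | eq (f g : M → M) (hf : PF f) (hg : PF g) : OSet (fun x => f x = g x)
  | not (S : M → Prop) (h : OSet S) : OSet (fun x => ¬ S x)
  | and (S T : M → Prop) (h₁ : OSet S) (h₂ : OSet T) : OSet (fun x => S x ∧ T x)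
  | or (S T : M → Prop) (h₁ : OSet S) (h₂ : OSet T) : OSet (fun x => S x ∨ T x)

theorem OSet.congr {S T : M → Prop} (h : OSet S) (hST : ∀ x, S x ↔ T x) : OSet T := by
  have : S = T := funext fun x => propext (hST x)
  rwa [← this]

theorem OSet.le (f g : M → M) (hf : PF f) (hg : PF g) : OSet (fun x => f x ≤ g x) :=
  (OSet.not _ (OSet.lt g f hg hf)).congr fun x => not_lt

theorem OSet.formula {S : M → Prop} (h : OSet S) :
    ∃ (n : ℕ) (φ : Fm (n + 1)) (v : Fin n → M), φ.QFree ∧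
      ∀ x, S x ↔ φ.sat (Fin.cons x v : Fin (n + 1) → M) := by
  have merge : ∀ {n m : ℕ} (φ : Fm (n + 1)) (v : Fin n → M) (ψ : Fm (m + 1)) (w : Fin m → M),
      φ.QFree → ψ.QFree → ∃ (φ' ψ' : Fm (n + m + 1)) (u : Fin (n + m) → M), φ'.QFree ∧ ψ'.QFree ∧
        (∀ x, φ'.sat (Fin.cons x u : Fin (n + m + 1) → M) ↔
          φ.sat (Fin.cons x v : Fin (n + 1) → M)) ∧
        (∀ x, ψ'.sat (Fin.cons x u : Fin (n + m + 1) → M) ↔
          ψ.sat (Fin.cons x w : Fin (m + 1) → M)) := by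
    intro n m φ v ψ w hφ hψ
    obtain ⟨φ', h₁, h₂⟩ := QFree.rename (M := M) φ hφ
      (Fin.cons 0 (fun i => (Fin.castAdd m i).succ) : Fin (n + 1) → Fin (n + m + 1))
    obtain ⟨ψ', h₃, h₄⟩ := QFree.rename (M := M) ψ hψ
      (Fin.cons 0 (fun i => (Fin.natAdd n i).succ) : Fin (m + 1) → Fin (n + m + 1))
    refine ⟨φ', ψ', Fin.append v w, h₁, h₃, fun x => ?_, fun x => ?_⟩
    · rw [h₂]
      have : (fun i => (Fin.cons x (Fin.append v w) : Fin (n + m + 1) → M)
          ((Fin.cons 0 (fun i => (Fin.castAdd m i).succ) : Fin (n + 1) → Fin (n + m + 1)) i)) =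
          (Fin.cons x v : Fin (n + 1) → M) := by
        funext i
        refine Fin.cases ?_ (fun j => ?_) i <;> simp
      rw [this]
    · rw [h₄]
      have : (fun i => (Fin.cons x (Fin.append v w) : Fin (n + m + 1) → M)
          ((Fin.cons 0 (fun i => (Fin.natAdd n i).succ) : Fin (m + 1) → Fin (n + m + 1)) i)) =
          (Fin.cons x w : Fin (m + 1) → M) := by
        funext i
        refine Fin.cases ?_ (fun j => ?_) i <;> simp
      rw [this]
  induction h with
  | lt f g hf hg =>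
      obtain ⟨n, s, t, v, hs, ht⟩ := hf.common hg
      exact ⟨n, .lt s t, v, trivial, fun x => by show f x < g x ↔ _; rw [hs, ht]; rfl⟩
  | eq f g hf hg =>
      obtain ⟨n, s, t, v, hs, ht⟩ := hf.common hg
      exact ⟨n, .eq s t, v, trivial, fun x => by show f x = g x ↔ _; rw [hs, ht]; rfl⟩
  | not S _ ih =>
      obtain ⟨n, φ, v, h₁, h₂⟩ := ih
      exact ⟨n, .not φ, v, h₁, fun x => not_congr (h₂ x)⟩
  | and S T _ _ ih₁ ih₂ =>
      obtain ⟨n, φ, v, h₁, h₂⟩ := ih₁
      obtain ⟨m, ψ, w, h₃, h₄⟩ := ih₂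
      obtain ⟨φ', ψ', u, h₅, h₆, h₇, h₈⟩ := merge φ v ψ w h₁ h₃
      exact ⟨n + m, .and φ' ψ', u, ⟨h₅, h₆⟩,
        fun x => and_congr ((h₂ x).trans (h₇ x).symm) ((h₄ x).trans (h₈ x).symm)⟩
  | or S T _ _ ih₁ ih₂ =>
      obtain ⟨n, φ, v, h₁, h₂⟩ := ih₁
      obtain ⟨m, ψ, w, h₃, h₄⟩ := ih₂
      obtain ⟨φ', ψ', u, h₅, h₆, h₇, h₈⟩ := merge φ v ψ w h₁ h₃
      exact ⟨n + m, .or φ' ψ', u, ⟨h₅, h₆⟩,
        fun x => or_congr ((h₂ x).trans (h₇ x).symm) ((h₄ x).trans (h₈ x).symm)⟩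

/-- Open induction. -/
theorem openInd (hM : ModelIOpen M) {S : M → Prop} (hS : OSet S) (h0 : S 0)
    (hs : ∀ x, S x → S (x + 1)) (x : M) : S x := by
  obtain ⟨n, φ, v, h₁, h₂⟩ := hS.formula
  rw [h₂]
  refine hM.ind n φ h₁ v ((h₂ 0).1 h0) ?_ x
  intro y hy
  exact (h₂ _).1 (hs y ((h₂ y).2 hy))

/-! ### facts on the order -/

theorem nonneg (hM : ModelIOpen M) (x : M) : 0 ≤ x := by
  rcases hM.basic.nonneg x with h | h
  · exact h.ge
  · exact le_of_lt h

theorem exists_add (hM : ModelIOpen M) {x y : M} (h : x ≤ y) : ∃ z, x + z = y := by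
  rcases h.lt_or_eq with h | h
  · exact hM.basic.sub x y h
  · exact ⟨0, by rw [add_zero, h]⟩

theorem add_one_le (hM : ModelIOpen M) {x y : M} (h : x < y) : x + 1 ≤ y := by
  obtain ⟨z, rfl⟩ := hM.basic.sub x y h
  have hz : 0 < z := by
    by_contra hz
    have : z = 0 := le_antisymm (not_lt.1 hz) (nonneg hM z)
    rw [this, add_zero] at h
    exact lt_irrefl _ h
  rcases hM.basic.discrete z hz with h1 | h1
  · rw [h1]
  · exact add_le_add le_rfl (le_of_lt h1)

theorem lt_add_one' (x : M) : x < x + 1 := by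
  have : (0 : M) < 1 := zero_lt_one
  exact lt_add_of_pos_right x this

/-- `x < y` with a witness. -/
theorem lt_iff_exists (hM : ModelIOpen M) {x y : M} : x < y ↔ ∃ w, x + w + 1 = y := by
  constructor
  · intro h
    obtain ⟨w, hw⟩ := exists_add hM (add_one_le hM h)
    exact ⟨w, by rw [← hw]; ring⟩
  · rintro ⟨w, rfl⟩
    calc x ≤ x + w := le_add_of_nonneg_right (nonneg hM w)
      _ < x + w + 1 := lt_add_one' _

end model

end Pool.Agent.Lib.P28b
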