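import Pool.Agent.Lib.P28b.Mono

/-! Dividing an interval into boundedly many pieces on which all comparisons are constant, and the
certificate for a bounded universal quantifier in front of a quantifier-free formula. -/

set_option autoImplicit false
set_option linter.unusedSectionVars false
set_option linter.unusedVariables false

namespace Pool.Agent.Lib.P28b

variable {M : Type} [CommSemiring M] [LinearOrder M] [IsStrictOrderedRing M]

/-- The half-open interval from `a` to `c` is divided into `r` consecutive half-open pieces (some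
possibly empty) all satisfying `P`. -/
def Split (P : M → M → Prop) : ℕ → M → M → Prop
  | 0, a, c => a = c
  | r + 1, a, c => ∃ b, a ≤ b ∧ b ≤ c ∧ P a b ∧ Split P r b c

theorem Split.imp {P Q : M → M → Prop} (h : ∀ a b, a ≤ b → P a b → Q a b) (r : ℕ) {a c : M}
    (hs : Split P r a c) : Split Q r a c := by
  induction r generalizing a with
  | zero => exact hs
  | succ r ih =>
      obtain ⟨b, h1, h2, h3, h4⟩ := hs
      exact ⟨b, h1, h2, h a b h1 h3, ih h4⟩

theorem Split.le {P : M → M → Prop} (r : ℕ) {a c : M} (hs : Split P r a c) : a ≤ c := by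
  cases r with
  | zero => exact le_of_eq hs
  | succ r =>
      obtain ⟨b, h1, h2, -, -⟩ := hs
      exact h1.trans h2

theorem Split.append {P : M → M → Prop} (r s : ℕ) {a b c : M} (h₁ : Split P r a b)
    (h₂ : Split P s b c) : Split P (r + s) a c := by
  induction r generalizing a with
  | zero =>
      have : a = b := h₁
      rw [this, Nat.zero_add]
      exact h₂
  | succ r ih =>
      obtain ⟨e, h3, h4, h5, h6⟩ := h₁
      rw [Nat.succ_add]
      exact ⟨e, h3, h4.trans (Split.le s h₂), h5, ih h6⟩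

theorem Split.bind {P Q : M → M → Prop} (m : ℕ) (h : ∀ a b, a ≤ b → P a b → Split Q m a b)
    (r : ℕ) {a c : M} (hs : Split P r a c) : Split Q (r * m) a c := by
  induction r generalizing a with
  | zero =>
      rw [Nat.zero_mul]
      exact hs
  | succ r ih =>
      obtain ⟨b, h1, h2, h3, h4⟩ := hs
      rw [Nat.succ_mul, Nat.add_comm]
      exact Split.append m (r * m) (h a b h1 h3) (ih h4)

theorem Split.within {P : M → M → Prop} (r : ℕ) {a x b : M} (hs : Split P r x b) (hax : a ≤ x) :
    Split (fun y z => a ≤ y ∧ z ≤ b ∧ P y z) r x b := by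
  induction r generalizing x with
  | zero => exact hs
  | succ r ih =>
      obtain ⟨e, h1, h2, h3, h4⟩ := hs
      exact ⟨e, h1, h2, ⟨hax, h2, h3⟩, ih h4 (hax.trans h1)⟩

/-- All comparisons in the list are constant on `[a, b)`. -/
def Cst {n : ℕ} (v : Fin n → M) (L : List (Tm (Fin (n + 1)) × Tm (Fin (n + 1)))) (a b : M) :
    Prop :=
  ∀ p ∈ L, ∀ z z', a ≤ z → z < b → a ≤ z' → z' < b → cv v p z = cv v p z'

/-- Three pieces of an interval on which the difference of two polynomials increases. -/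
theorem three (hM : ModelIOpen M) {f g : M → M} (hf : PF f) (hg : PF g) {a b : M} (hab : a ≤ b)
    (h : ∀ y z, a ≤ y → y ≤ z → z ≤ b → f y + g z ≤ f z + g y) :
    ∃ e₁ e₂, a ≤ e₁ ∧ e₁ ≤ e₂ ∧ e₂ ≤ b ∧ (∀ z, a ≤ z → z < e₁ → f z < g z) ∧
      (∀ z, e₁ ≤ z → z < e₂ → f z = g z) ∧ (∀ z, e₂ ≤ z → z < b → g z < f z) := by
  obtain ⟨e₁, h1, h2, h3, h4⟩ := cut hM (OSet.le g f hg hf) hab (by
    intro z z' h1 h2 h3 h4
    have h5 := h z z' h1 h2 h3.le
    have h6 : f z + g z' ≤ f z + f z' := by
      rw [add_comm (f z) (f z')]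
      exact h5.trans (add_le_add le_rfl h4)
    exact le_of_add_le_add_left h6)
  obtain ⟨e₂, h5, h6, h7, h8⟩ := cut hM (OSet.lt g f hg hf) h2 (by
    intro z z' h1' h2 h3 h4
    have h5 := h z z' (h1.trans h1') h2 h3.le
    have h6 : f z + g z' < f z + f z' := by
      rw [add_comm (f z) (f z')]
      exact lt_of_le_of_lt h5 (add_lt_add_of_le_of_lt le_rfl h4)
    exact lt_of_add_lt_add_left h6)
  refine ⟨e₁, e₂, h1, h5, h6, fun z hz hz' => not_le.1 (h3 z hz hz'), fun z hz hz' => ?_, h8⟩
  exact le_antisymm (not_lt.1 (h7 z hz hz')) (h4 z hz (lt_of_lt_of_le hz' h6))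

theorem chain_split (hM : ModelIOpen M) {n : ℕ} (v : Fin n → M) (k : ℕ)
    (p : Tm (Fin (n + 1)) × Tm (Fin (n + 1)))
    (hk : ∀ w : Fin (n + 1) → M, (dk k p).1.eval w = (dk k p).2.eval w) {a c : M} (hac : a ≤ c) :
    Split (Cst v (chain k p)) (3 ^ k) a c := by
  induction k generalizing p with
  | zero =>
      refine ⟨c, hac, le_rfl, ?_, rfl⟩
      intro q hq
      exact absurd hq (by simp [chain])
  | succ k ih =>
      have h1 := ih (dl p.1 p.2, dr p.1 p.2) hk
      rw [pow_succ]
      refine Split.bind 3 ?_ (3 ^ k) h1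
      intro x y hxy hc
      -- the difference has constant sign
      have h2 : ∀ z z', x ≤ z → z < y → x ≤ z' → z' < y →
          cv v (dl p.1 p.2, dr p.1 p.2) z = cv v (dl p.1 p.2, dr p.1 p.2) z' := by
        cases k with
        | zero =>
            intro z z' _ _ _ _
            have h1 : ∀ z, cv v (dl p.1 p.2, dr p.1 p.2) z = Ordering.eq :=
              fun z => (cmp_eq_eq_iff _ _).2 (hk _)
            rw [h1, h1]
        | succ k => exact hc _ List.mem_cons_self
      have hp : PF (fun z => p.1.eval (Fin.cons z v : Fin (n + 1) → M)) := PF.of_term _ _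
      have hq : PF (fun z => p.2.eval (Fin.cons z v : Fin (n + 1) → M)) := PF.of_term _ _
      have key : ∃ e₁ e₂, x ≤ e₁ ∧ e₁ ≤ e₂ ∧ e₂ ≤ y ∧ Cst v [p] x e₁ ∧ Cst v [p] e₁ e₂ ∧
          Cst v [p] e₂ y := by
        have hcst : ∀ (u w : M) (o : Ordering), (∀ z, u ≤ z → z < w → cv v p z = o) →
            Cst v [p] u w := by
          intro u w o h q hq z z' g1 g2 g3 g4
          rw [List.mem_singleton] at hq
          rw [hq, h z g1 g2, h z' g3 g4]
        rcases mono_or hM v p h2 with h3 | h3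
        · obtain ⟨e₁, e₂, h4, h5, h6, h7, h8, h9⟩ := three hM hp hq hxy h3
          exact ⟨e₁, e₂, h4, h5, h6,
            hcst _ _ Ordering.lt (fun z hz hz' => (cmp_eq_lt_iff _ _).2 (h7 z hz hz')),
            hcst _ _ Ordering.eq (fun z hz hz' => (cmp_eq_eq_iff _ _).2 (h8 z hz hz')),
            hcst _ _ Ordering.gt (fun z hz hz' => (cmp_eq_gt_iff _ _).2 (h9 z hz hz'))⟩
        · obtain ⟨e₁, e₂, h4, h5, h6, h7, h8, h9⟩ := three hM hq hp hxy h3
          exact ⟨e₁, e₂, h4, h5, h6,
            hcst _ _ Ordering.gt (fun z hz hz' => (cmp_eq_gt_iff _ _).2 (h7 z hz hz')),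
            hcst _ _ Ordering.eq (fun z hz hz' => (cmp_eq_eq_iff _ _).2 (h8 z hz hz').symm),
            hcst _ _ Ordering.lt (fun z hz hz' => (cmp_eq_lt_iff _ _).2 (h9 z hz hz'))⟩
      obtain ⟨e₁, e₂, h4, h5, h6, h7, h8, h9⟩ := key
      have hsub : ∀ u w : M, x ≤ u → w ≤ y → Cst v [p] u w → Cst v (chain (k + 1) p) u w := by
        intro u w hxu hwy hp q hq z z' g1 g2 g3 g4
        rcases List.mem_cons.1 hq with hq | hq
        · rw [hq]
          exact hp _ (List.mem_singleton.2 rfl) z z' g1 g2 g3 g4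
        · exact hc q hq z z' (hxu.trans g1) (lt_of_lt_of_le g2 hwy) (hxu.trans g3)
            (lt_of_lt_of_le g4 hwy)
      refine ⟨e₁, h4, h5.trans h6, hsub _ _ le_rfl (h5.trans h6) h7, e₂, h5, h6,
        hsub _ _ h4 h6 h8, y, h6, le_rfl, hsub _ _ (h4.trans h5) le_rfl h9, rfl⟩

/-- A length of the chain of differences of the pair after which it vanishes. -/
noncomputable def vk {n : ℕ} (p : Tm (Fin (n + 1)) × Tm (Fin (n + 1))) : ℕ :=
  Classical.choose (exists_vanish p)

theorem vk_spec {n : ℕ} (p : Tm (Fin (n + 1)) × Tm (Fin (n + 1))) (w : Fin (n + 1) → M) :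
    (dk (vk p) p).1.eval w = (dk (vk p) p).2.eval w :=
  Classical.choose_spec (exists_vanish p) w

/-- All pairs in the list with their differences. -/
noncomputable def fullL {n : ℕ} (L : List (Tm (Fin (n + 1)) × Tm (Fin (n + 1)))) :
    List (Tm (Fin (n + 1)) × Tm (Fin (n + 1))) :=
  L.flatMap (fun p => chain (vk p) p)

/-- The number of pieces used for a list. -/
noncomputable def rr {n : ℕ} (L : List (Tm (Fin (n + 1)) × Tm (Fin (n + 1)))) : ℕ :=
  (L.map (fun p => 3 ^ vk p)).prod

theorem full_split (hM : ModelIOpen M) {n : ℕ} (v : Fin n → M)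
    (L : List (Tm (Fin (n + 1)) × Tm (Fin (n + 1)))) {a c : M} (hac : a ≤ c) :
    Split (Cst v (fullL L)) (rr L) a c := by
  induction L with
  | nil =>
      refine ⟨c, hac, le_rfl, ?_, rfl⟩
      intro q hq
      exact absurd hq (by simp [fullL])
  | cons p L ih =>
      have h0 : rr (p :: L) = rr L * 3 ^ vk p := by
        unfold rr
        rw [List.map_cons, List.prod_cons, Nat.mul_comm]
      rw [h0]
      refine Split.bind (3 ^ vk p) ?_ (rr L) ih
      intro x y hxy hc
      refine Split.imp ?_ _ (Split.within (a := x) _ (chain_split hM v (vk p) p (vk_spec p) hxy)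
        le_rfl)
      intro u w huw h1 q hq z z' h2 h3 h4 h5
      obtain ⟨hxu, hwy, hp⟩ := h1
      unfold fullL at hq hc
      rw [List.flatMap_cons, List.mem_append] at hq
      rcases hq with hq | hq
      · exact hp q hq z z' h2 h3 h4 h5
      · exact hc q hq z z' (hxu.trans h2) (lt_of_lt_of_le h3 hwy) (hxu.trans h4)
          (lt_of_lt_of_le h5 hwy)

/-! ### quantifier-free formulas -/

/-- The pairs of terms compared in the formula. -/
def atoms : {n : ℕ} → Fm n → List (Tm (Fin n) × Tm (Fin n))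
  | _, .lt s t => [(s, t)]
  | _, .eq s t => [(s, t)]
  | _, .not φ => atoms φ
  | _, .and φ ψ => atoms φ ++ atoms ψ
  | _, .or φ ψ => atoms φ ++ atoms ψ
  | _, .ex _ => []
  | _, .all _ => []
  | _, .exB _ _ => []
  | _, .allB _ _ => []

theorem sat_congr {n : ℕ} (θ : Fm n) (hθ : θ.QFree) (v w : Fin n → M)
    (h : ∀ p ∈ atoms θ, cmp (p.1.eval v) (p.2.eval v) = cmp (p.1.eval w) (p.2.eval w)) :
    θ.sat v ↔ θ.sat w := by
  induction θ with
  | lt s t =>
      have h1 : cmp (s.eval v) (t.eval v) = cmp (s.eval w) (t.eval w) :=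
        h (s, t) (by simp [atoms])
      show s.eval v < t.eval v ↔ s.eval w < t.eval w
      rw [← cmp_eq_lt_iff, h1, cmp_eq_lt_iff]
  | eq s t =>
      have h1 : cmp (s.eval v) (t.eval v) = cmp (s.eval w) (t.eval w) :=
        h (s, t) (by simp [atoms])
      show s.eval v = t.eval v ↔ s.eval w = t.eval w
      rw [← cmp_eq_eq_iff, h1, cmp_eq_eq_iff]
  | not φ ih => exact not_congr (ih hθ v w h)
  | and φ ψ ih₁ ih₂ =>
      exact and_congr
        (ih₁ hθ.1 v w (fun p hp => h p (List.mem_append.2 (Or.inl hp))))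
        (ih₂ hθ.2 v w (fun p hp => h p (List.mem_append.2 (Or.inr hp))))
  | or φ ψ ih₁ ih₂ =>
      exact or_congr
        (ih₁ hθ.1 v w (fun p hp => h p (List.mem_append.2 (Or.inl hp))))
        (ih₂ hθ.2 v w (fun p hp => h p (List.mem_append.2 (Or.inr hp))))
  | ex φ ih => exact hθ.elim
  | all φ ih => exact hθ.elim
  | exB t φ ih => exact hθ.elim
  | allB t φ ih => exact hθ.elim

/-- The certificate that `θ` holds on `[a, b)`. -/
def Cert {n : ℕ} (v : Fin n → M) (L : List (Tm (Fin (n + 1)) × Tm (Fin (n + 1))))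
    (θ : Fm (n + 1)) (a b : M) : Prop :=
  a = b ∨ ∃ c, c + 1 = b ∧ a ≤ c ∧ (∀ p ∈ L, cv v p a = cv v p c) ∧
    θ.sat (Fin.cons a v : Fin (n + 1) → M)

theorem cert_sound (hM : ModelIOpen M) {n : ℕ} (v : Fin n → M) (θ : Fm (n + 1)) (hθ : θ.QFree)
    {a b : M} (h : Cert v (fullL (atoms θ)) θ a b) (z : M) (haz : a ≤ z) (hzb : z < b) :
    θ.sat (Fin.cons z v : Fin (n + 1) → M) := by
  rcases h with h | ⟨c, hcb, hac, h1, h2⟩
  · subst h
    exact absurd haz (not_le.2 hzb)
  · have hzc : z ≤ c := by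
      by_contra h3
      have h4 := add_one_le hM (not_le.1 h3)
      rw [hcb] at h4
      exact absurd h4 (not_le.2 hzb)
    refine (sat_congr θ hθ _ _ ?_).2 h2
    intro p hp
    refine two_point hM v (vk p) p (vk_spec p) (a := a) (c := c) ?_ z haz hzc
    intro q hq
    exact h1 q (List.mem_flatMap.2 ⟨p, hp, hq⟩)

theorem all_iff (hM : ModelIOpen M) {n : ℕ} (v : Fin n → M) (θ : Fm (n + 1)) (hθ : θ.QFree)
    (t : M) :
    (∀ z : M, z < t → θ.sat (Fin.cons z v : Fin (n + 1) → M)) ↔
      Split (Cert v (fullL (atoms θ)) θ) (rr (atoms θ)) 0 t := by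
  constructor
  · intro h
    refine Split.imp ?_ _ (Split.within (a := 0) _
      (full_split hM v (atoms θ) (nonneg hM t)) le_rfl)
    intro a b hab h1
    obtain ⟨-, hbt, hc⟩ := h1
    rcases hab.eq_or_lt with hab | hab
    · exact Or.inl hab
    · right
      obtain ⟨w, hw⟩ := exists_add hM (add_one_le hM hab)
      have h2 : a + w + 1 = b := by rw [← hw]; ring
      have h3 : a + w < b := by rw [← h2]; exact lt_add_one' _
      have h4 : a ≤ a + w := le_add_of_nonneg_right (nonneg hM w)
      exact ⟨a + w, h2, h4, fun p hp => hc p hp a (a + w) le_rfl hab h4 h3,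
        h a (lt_of_lt_of_le hab hbt)⟩
  · intro hs
    have key : ∀ (r : ℕ) (a : M), Split (Cert v (fullL (atoms θ)) θ) r a t →
        ∀ z, a ≤ z → z < t → θ.sat (Fin.cons z v : Fin (n + 1) → M) := by
      intro r
      induction r with
      | zero =>
          intro a h z h1 h2
          have : a = t := h
          subst this
          exact absurd h1 (not_le.2 h2)
      | succ r ih =>
          intro a h z h1 h2
          obtain ⟨b, h3, h4, h5, h6⟩ := h
          by_cases hz : z < b
          · exact cert_sound hM v θ hθ h5 z h1 hz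
          · exact ih b h6 z (not_lt.1 hz) h2
    intro z hz
    exact key _ 0 hs z (nonneg hM z) hz

end Pool.Agent.Lib.P28b
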